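import Pool.Agent.H3.RCR.Stmts2

/-! RCR: modules K1, S1, S3. -/

open Relation

namespace Pool.Agent.H34.RCR

open Pool.Agent.H3.RCR

theorem sum_deg (F : Finset Tri) : ∑ v ∈ verts F, deg F v = F.card := by
  unfold deg
  exact (Finset.card_eq_sum_card_fiberwise (f := fun t : Tri => t.1) (s := F) (t := verts F)
    (fun t ht => Finset.mem_image_of_mem _ ht)).symm

theorem k1 : K1Stmt := by
  intro F T hF hT h v hv
  have h1 := sum_deg F
  have h2 := hF.euler
  have h3 : ∑ w ∈ (verts F).erase v, deg F w + deg F v = ∑ w ∈ verts F, deg F w :=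
    Finset.sum_erase_add _ _ hv
  have h4 : ((verts F).erase v \ T).card * 6 ≤ ∑ w ∈ (verts F).erase v \ T, deg F w := by
    have := Finset.card_nsmul_le_sum ((verts F).erase v \ T) (deg F) 6 (by
      intro w hw
      rw [Finset.mem_sdiff, Finset.mem_erase] at hw
      exact h w hw.1.2 hw.2)
    simpa using this
  have h5 : ∑ w ∈ (verts F).erase v \ T, deg F w ≤ ∑ w ∈ (verts F).erase v, deg F w :=
    Finset.sum_le_sum_of_subset Finset.sdiff_subset
  have h6 : ((verts F).erase v).card - T.card ≤ ((verts F).erase v \ T).card :=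
    Finset.le_card_sdiff _ _
  have h7 : ((verts F).erase v).card = (verts F).card - 1 := Finset.card_erase_of_mem hv
  have h8 : 0 < (verts F).card := Finset.card_pos.mpr ⟨v, hv⟩
  omega

theorem card_nbrs (F : Finset Tri) (hF : Pre F) (x : ℕ) [DecidablePred fun y => Adj F x y] :
    ((verts F).filter (fun y => Adj F x y)).card ≤ deg F x := by
  have : ((verts F).filter (fun y => Adj F x y)) ⊆
      (F.filter (fun t => t.1 = x)).image (fun t => t.2.1) := by
    intro y hy
    rw [Finset.mem_filter] at hy
    obtain ⟨c, hc⟩ := hy.2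
    rw [Finset.mem_image]
    exact ⟨(x, y, c), Finset.mem_filter.mpr ⟨hc, rfl⟩, rfl⟩
  exact (Finset.card_le_card this).trans Finset.card_image_le

theorem mem_ball_succ {F : Finset Tri} {T : Finset ℕ} {n y : ℕ} : y ∈ ball F T (n + 1) ↔
    y ∈ ball F T n ∨ (y ∈ verts F ∧ ∃ x ∈ ball F T n, Adj F x y) := by
  classical
  rw [show ball F T (n + 1) = ball F T n ∪ (verts F).filter (fun y => ∃ x ∈ ball F T n, Adj F x y) by
    conv_lhs => unfold ball]
  rw [Finset.mem_union, Finset.mem_filter]

theorem ball_sub (F : Finset Tri) (T : Finset ℕ) (hT : T ⊆ verts F) (n : ℕ) : ball F T n ⊆ verts F := by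
  induction n with
  | zero => exact hT
  | succ n ih =>
    intro y hy
    rw [mem_ball_succ] at hy
    rcases hy with hy | hy
    · exact ih hy
    · exact hy.1

theorem s1 : S1Stmt := by
  classical
  intro F T Δ n hF hT hΔ
  induction n with
  | zero => simp [ball]
  | succ n ih =>
    have h1 : ball F T (n + 1) ⊆ ball F T n ∪
        (ball F T n).biUnion (fun x => (verts F).filter (fun y => Adj F x y)) := by
      intro y hy
      rw [mem_ball_succ] at hy
      rw [Finset.mem_union]
      rcases hy with hy | ⟨hy1, x, hx, hxy⟩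
      · exact Or.inl hy
      · refine Or.inr ?_
        rw [Finset.mem_biUnion]
        exact ⟨x, hx, Finset.mem_filter.mpr ⟨hy1, hxy⟩⟩
    have h2 : ((ball F T n).biUnion (fun x => (verts F).filter (fun y => Adj F x y))).card ≤
        (ball F T n).card * Δ := by
      refine Finset.card_biUnion_le_card_mul _ _ _ ?_
      intro x hx
      exact (card_nbrs F hF x).trans (hΔ x (ball_sub F T hT n hx))
    have h3 : (ball F T (n + 1)).card ≤ (ball F T n).card + (ball F T n).card * Δ :=
      (Finset.card_le_card h1).trans ((Finset.card_union_le _ _).trans (Nat.add_le_add_left h2 _))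
    calc (ball F T (n + 1)).card ≤ (ball F T n).card * (Δ + 1) := by rw [Nat.mul_add, Nat.mul_one]; omega
      _ ≤ T.card * (Δ + 1) ^ n * (Δ + 1) := Nat.mul_le_mul_right _ ih
      _ = T.card * (Δ + 1) ^ (n + 1) := by rw [pow_succ, mul_assoc]

theorem s3 : S3Stmt := by
  classical
  intro T E hT hE hmono
  by_contra hcon
  push Not at hcon
  let f : ℕ → ℕ → Finset ℕ := fun q x => T.filter (fun y => E q x y)
  let c : ℕ → ℕ := fun q => (T.image (f q)).card
  have hf : ∀ q, ∀ x ∈ T, ∀ y ∈ T, f q x = f q y ↔ E q x y := by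
    intro q x hx y hy
    constructor
    · intro h
      have : y ∈ f q y := Finset.mem_filter.mpr ⟨hy, (hE q).refl y⟩
      rw [← h] at this
      exact (Finset.mem_filter.mp this).2
    · intro h
      ext z
      simp only [f, Finset.mem_filter]
      constructor
      · rintro ⟨h1, h2⟩; exact ⟨h1, (hE q).trans ((hE q).symm h) h2⟩
      · rintro ⟨h1, h2⟩; exact ⟨h1, (hE q).trans h h2⟩
  let g : ℕ → Finset ℕ → Finset ℕ := fun q C => T.filter (fun y => ∃ x ∈ C, E (q + 1) x y)
  have hg : ∀ q, ∀ x ∈ T, g q (f q x) = f (q + 1) x := by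
    intro q x hx
    ext z
    simp only [g, f, Finset.mem_filter]
    constructor
    · rintro ⟨h1, y, ⟨hy, hxy⟩, hyz⟩
      exact ⟨h1, (hE (q + 1)).trans (hmono q x y hxy) hyz⟩
    · rintro ⟨h1, h2⟩
      exact ⟨h1, x, ⟨hx, (hE q).refl x⟩, h2⟩
  have himg : ∀ q, (T.image (f q)).image (g q) = T.image (f (q + 1)) := by
    intro q
    rw [Finset.image_image]
    apply Finset.image_congr
    intro x hx
    exact hg q x hx
  have hlt : ∀ q < T.card, c (q + 1) < c q := by
    intro q hq
    have h1 : c (q + 1) ≤ c q := by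
      show (T.image (f (q + 1))).card ≤ _
      rw [← himg q]
      exact Finset.card_image_le
    refine lt_of_le_of_ne h1 (fun h2 => ?_)
    have h3 : ((T.image (f q)).image (g q)).card = (T.image (f q)).card := by
      rw [himg q]; exact h2
    rw [Finset.card_image_iff] at h3
    obtain ⟨x, hx, y, hy, hxy, hn⟩ := hcon q hq
    apply hn
    rw [← hf q x hx y hy]
    apply h3 (Finset.mem_coe.mpr (Finset.mem_image_of_mem _ hx)) (Finset.mem_coe.mpr (Finset.mem_image_of_mem _ hy))
    rw [hg q x hx, hg q y hy, hf (q + 1) x hx y hy]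
    exact hxy
  have hsum : ∀ q ≤ T.card, c q + q ≤ T.card := by
    intro q
    induction q with
    | zero => intro _; exact Finset.card_image_le
    | succ q ih =>
      intro hq
      have h1 := ih (by omega)
      have h2 := hlt q (by omega)
      omega
  have h1 := hsum T.card le_rfl
  have h2 : 0 < c T.card := Finset.card_pos.mpr (hT.image _)
  omega

end Pool.Agent.H34.RCR
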