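import Pool.Agent.H34.RCR.K1

/-! RCR: module S2. -/

open Relation

namespace Pool.Agent.H34.RCR

open Pool.Agent.H3.RCR

theorem ball_mono {F : Finset Tri} {T : Finset ℕ} {s s' : ℕ} (h : s ≤ s') : ball F T s ⊆ ball F T s' := by
  induction h with
  | refl => exact Finset.Subset.refl _
  | step _ ih => exact ih.trans (fun x hx => mem_ball_succ.mpr (Or.inl hx))

theorem adj_symm {F : Finset Tri} (hF : Pre F) {a b : ℕ} (h : Adj F a b) : Adj F b a := by
  obtain ⟨c, hc⟩ := h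
  exact hF.opp a b c hc

theorem adj_left {F : Finset Tri} {a b : ℕ} (h : Adj F a b) : a ∈ verts F := mem_verts'.mpr ⟨b, h⟩

theorem rtg_mono {r r' : ℕ → ℕ → Prop} (h : ∀ a b, r a b → r' a b) {x y : ℕ} (hxy : ReflTransGen r x y) :
    ReflTransGen r' x y := by
  induction hxy with
  | refl => exact ReflTransGen.refl
  | tail _ hbc ih => exact ih.tail (h _ _ hbc)

theorem rtg_symm {F : Finset Tri} (hF : Pre F) {Q : ℕ → Prop} {u x : ℕ} (hu : Q u)
    (h : ReflTransGen (fun a b => Adj F a b ∧ Q b) u x) :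
    ReflTransGen (fun a b => Adj F a b ∧ Q b) x u ∧ Q x := by
  induction h with
  | refl => exact ⟨ReflTransGen.refl, hu⟩
  | tail _ hbc ih => exact ⟨ReflTransGen.head ⟨adj_symm hF hbc.1, ih.2⟩ ih.1, hbc.2⟩

theorem s2 : S2Stmt := by
  classical
  intro F T v0 H hF hT hv0 hv0H t ht
  have hP := hF.toPre
  have hb0 : ∀ s ≤ H, v0 ∉ ball F T s := fun s hs h => hv0H (ball_mono hs h)
  have hball : ∀ s ≤ H, ∀ x ∈ verts F, x ∈ ball F T s → x ∈ Kt F T v0 s := by
    intro s hs x hx hxb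
    refine ⟨hx, fun h => ?_⟩
    rcases ReflTransGen.cases_tail h with h | ⟨y, _, hy⟩
    · exact hb0 s hs (h ▸ hxb)
    · exact hy.2 hxb
  have hTb : ∀ s, T ⊆ ball F T s := fun s => ball_mono (F := F) (T := T) (Nat.zero_le s)
  have hKt : ∀ s ≤ H, ∀ x ∈ T, x ∈ Kt F T v0 s := fun s hs x hx => hball s hs x (hT hx) (hTb s hx)
  have hmem : ∀ s t y, y ∈ cpt F T v0 s t ↔
      y ∈ verts F ∧ ReflTransGen (fun a b => Adj F a b ∧ b ∈ Kt F T v0 s) t y := by
    intro s t y
    unfold cpt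
    rw [Finset.mem_filter]
  have hsub : ∀ s ≤ H, ∀ t ∈ T, ∀ x ∈ cpt F T v0 s t, x ∈ Kt F T v0 s := by
    intro s hs t ht x hx
    rw [hmem] at hx
    exact (rtg_symm hP (Q := fun x => x ∈ Kt F T v0 s) (hKt s hs t ht) hx.2).2
  have hself : ∀ s, ∀ t ∈ T, t ∈ cpt F T v0 s t := fun s t ht => (hmem s t t).mpr ⟨hT ht, ReflTransGen.refl⟩
  have hclosed : ∀ s t x y, x ∈ cpt F T v0 s t → Adj F x y → y ∈ Kt F T v0 s → y ∈ cpt F T v0 s t := by
    intro s t x y hx hxy hy
    rw [hmem] at hx ⊢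
    exact ⟨hy.1, hx.2.tail ⟨hxy, hy⟩⟩
  have hKmono : ∀ s, ∀ x ∈ Kt F T v0 s, x ∈ Kt F T v0 (s + 1) := by
    intro s x hx
    refine ⟨hx.1, fun h => hx.2 ?_⟩
    exact rtg_mono (fun a b hab => ⟨hab.1, fun hb => hab.2 (ball_mono (Nat.le_succ s) hb)⟩) h
  have hcmono : ∀ s t, cpt F T v0 s t ⊆ cpt F T v0 (s + 1) t := by
    intro s t x hx
    rw [hmem] at hx ⊢
    exact ⟨hx.1, rtg_mono (fun a b hab => ⟨hab.1, hKmono s b hab.2⟩) hx.2⟩
  have hnK : ∀ s x, x ∈ verts F → x ∉ Kt F T v0 s →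
      ReflTransGen (fun a b => Adj F a b ∧ b ∉ ball F T s) v0 x := by
    intro s x hx h
    by_contra h2
    exact h ⟨hx, h2⟩
  refine ⟨fun s hs => ⟨hself s t ht, hsub s hs t ht⟩, fun s hs => ⟨hcmono s t, ?_⟩, ?_, ?_, ?_, ?_⟩
  · intro x hx y hxy
    have hxK := hsub s hs.le t ht x hx
    have hy : y ∈ verts F := adj_left (adj_symm hP hxy)
    refine hclosed (s + 1) t x y (hcmono s t hx) hxy ?_
    by_cases hxb : x ∈ ball F T s
    · exact hball (s + 1) hs y hy (mem_ball_succ.mpr (Or.inr ⟨hy, x, hxb, hxy⟩))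
    · refine ⟨hy, fun h => hxK.2 ?_⟩
      have h2 : ReflTransGen (fun a b => Adj F a b ∧ b ∉ ball F T s) v0 y :=
        rtg_mono (fun a b hab => ⟨hab.1, fun hb => hab.2 (ball_mono (Nat.le_succ s) hb)⟩) h
      exact h2.tail ⟨adj_symm hP hxy, hxb⟩
  · intro s hs x hx y hy
    have key : ∀ z ∈ cpt F T v0 s t, ReflTransGen (fun a b => Adj F a b ∧ b ∈ cpt F T v0 s t) t z := by
      intro z hz
      rw [hmem] at hz
      have : ∀ w, ReflTransGen (fun a b => Adj F a b ∧ b ∈ Kt F T v0 s) t w →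
          ReflTransGen (fun a b => Adj F a b ∧ b ∈ cpt F T v0 s t) t w ∧ w ∈ cpt F T v0 s t := by
        intro w hw
        induction hw with
        | refl => exact ⟨ReflTransGen.refl, hself s t ht⟩
        | tail _ hbc ih =>
          have h1 := hclosed s t _ _ ih.2 hbc.1 hbc.2
          exact ⟨ih.1.tail ⟨hbc.1, h1⟩, h1⟩
      exact (this z hz.2).1
    exact (rtg_symm hP (Q := fun z => z ∈ cpt F T v0 s t) (hself s t ht) (key x hx)).1.trans (key y hy)
  · intro s hs x hx y hy hxc hyc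
    have hv0K : v0 ∉ Kt F T v0 s := fun h => h.2 ReflTransGen.refl
    have hv0c : v0 ∉ cpt F T v0 s t := fun h => hv0K (hsub s hs t ht v0 h)
    have hdir : ∀ z, ReflTransGen (fun a b => Adj F a b ∧ b ∉ ball F T s) v0 z →
        ReflTransGen (fun a b => Adj F a b ∧ b ∉ cpt F T v0 s t) v0 z := by
      intro z hz
      induction hz with
      | refl => exact ReflTransGen.refl
      | tail hab hbc ih =>
        refine ih.tail ⟨hbc.1, fun hc => ?_⟩
        exact (hsub s hs t ht _ hc).2 (hab.tail hbc)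
    have key : ∀ z ∈ verts F, z ∉ cpt F T v0 s t →
        ReflTransGen (fun a b => Adj F a b ∧ b ∉ cpt F T v0 s t) v0 z := by
      intro z hz
      have hpath := hF.conn v0 z hv0 hz
      clear hz
      induction hpath with
      | refl => intro _; exact ReflTransGen.refl
      | tail hab hbc ih =>
        rename_i b c
        intro hc
        by_cases hcK : c ∈ Kt F T v0 s
        · have hb : b ∉ cpt F T v0 s t := fun hb => hc (hclosed s t b c hb hbc hcK)
          exact (ih hb).tail ⟨hbc, hc⟩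
        · exact hdir c (hnK s c (adj_left (adj_symm hP hbc)) hcK)
    exact (rtg_symm hP (Q := fun z => z ∉ cpt F T v0 s t) hv0c (key x hx hxc)).1.trans (key y hy hyc)
  · intro s hs t' ht' hx
    obtain ⟨x, hx1, hx2⟩ := hx
    have h1 := (hmem s t x).mp hx1
    have h2 := (hmem s t' x).mp hx2
    have r1 := rtg_symm hP (Q := fun z => z ∈ Kt F T v0 s) (hKt s hs t ht) h1.2
    have r2 := rtg_symm hP (Q := fun z => z ∈ Kt F T v0 s) (hKt s hs t' ht') h2.2
    ext y
    rw [hmem, hmem]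
    exact ⟨fun h => ⟨h.1, (h2.2.trans r1.1).trans h.2⟩, fun h => ⟨h.1, (h1.2.trans r2.1).trans h.2⟩⟩
  · intro s hs x hx hy
    obtain ⟨y, hxy, hyc⟩ := hy
    by_contra hxb
    have hyK : y ∉ Kt F T v0 s := fun h => hyc (hclosed s t x y hx hxy h)
    have h1 := hnK s y (adj_left (adj_symm hP hxy)) hyK
    exact (hsub s hs t ht x hx).2 (h1.tail ⟨adj_symm hP hxy, hxb⟩)

end Pool.Agent.H34.RCR
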